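import Pool.Agent.T4h92.BW.Dec3

/-!
# Sets of bounded width: the decomposition into boxes
-/

set_option autoImplicit false

namespace Pool.Agent.T4h92.BW

open Finset
open scoped Classical Pointwise

theorem t_DEC : T_DEC := by
  intro κ _ P hP p hok M hM c₀ hne
  have hκ : 0 < Fintype.card κ := Fintype.card_pos_iff.2 ⟨c₀⟩
  set ω : κ → ℝ := fun c => if c = c₀ then 1 else 0 with hωd
  have hω : ∀ c, 0 ≤ ω c := by
    intro c
    rw [hωd]
    beta_reduce
    split_ifs
    · exact zero_le_one
    · exact le_refl _
  obtain ⟨D, hD, hDp⟩ := exists_dat hP hM hκ p hok ω hω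
  have hint : ∀ φ : D.ι → κ → ℝ, D.int ω φ =
      ∑ β, (D.m β * ((D.Q β c₀).card : ℝ)) * φ β c₀ := by
    intro φ
    unfold Dat.int
    refine Finset.sum_congr rfl fun β _ => ?_
    rw [Finset.sum_eq_single c₀]
    · rw [hωd]
      beta_reduce
      rw [if_pos rfl, one_mul]
    · intro c _ hc
      rw [hωd]
      beta_reduce
      rw [if_neg hc, zero_mul, zero_mul]
    · intro h
      exact absurd (Finset.mem_univ c₀) h
  set N : ℝ := ((p.val c₀).card : ℝ) with hN
  have hNpos : 0 < N := by
    rw [hN]
    exact_mod_cast hne.card_pos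
  have hZ : D.int ω (fun _ _ => 1) = N := by
    rw [hint, hN, hD.card c₀]
    exact Finset.sum_congr rfl fun β _ => by ring
  set W : D.ι → Option D.J → Finset ℕ := fun β o => match o with
    | none => D.Q β c₀
    | some j => D.W β j with hW
  have hprod : ∀ β, ∏ j, ((W β j).card : ℝ) = D.m β * ((D.Q β c₀).card : ℝ) := by
    intro β
    rw [Fintype.prod_option, mul_comm]
    rfl
  have hle : ∀ β, D.m β * ((D.Q β c₀).card : ℝ) ≤ N := by
    intro β
    rw [hN, hD.card c₀]
    exact Finset.single_le_sum (f := fun β => D.m β * ((D.Q β c₀).card : ℝ))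
      (fun β _ => mul_nonneg (D.m_nonneg β) (Nat.cast_nonneg _)) (Finset.mem_univ β)
  refine ⟨Option D.J, D.ι, inferInstance, inferInstance, W,
    univ.filter fun o => ∑ β, (∏ j', ((W β j').card : ℝ)) * Real.log (W β o).card ≤
      (M + 2 * Real.log (Fintype.card κ)) * N, ?_, ?_, ?_, ?_, ?_, ?_, ?_, ?_⟩
  · refine hD.cardι.trans ?_
    rw [Fintype.card_option]
    exact Nat.pow_le_pow_right hκ (Nat.le_succ _)
  · rw [Fintype.card_option]
    push_cast
    have h1 : ∑ j : D.J, M / 2 * N ≤ ∑ j : D.J, D.int ω fun β _ => Real.log (D.W β j).card :=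
      Finset.sum_le_sum fun j _ => by rw [← hZ]; exact hD.low j
    rw [Finset.sum_const, Finset.card_univ, nsmul_eq_mul] at h1
    have h2 : ∑ j : D.J, D.int ω (fun β _ => Real.log (D.W β j).card) ≤ N * Real.log N := by
      have h3 : ∑ j : D.J, D.int ω (fun β _ => Real.log (D.W β j).card) =
          ∑ β, (D.m β * ((D.Q β c₀).card : ℝ)) * ∑ j : D.J, Real.log (D.W β j).card := by
        rw [Finset.sum_congr rfl fun j _ => hint _, Finset.sum_comm]
        exact Finset.sum_congr rfl fun β _ => (Finset.mul_sum _ _ _).symm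
      rw [h3]
      have h4 : N * Real.log N = ∑ β, (D.m β * ((D.Q β c₀).card : ℝ)) * Real.log N := by
        rw [← Finset.sum_mul, ← hD.card c₀]
      rw [h4]
      refine Finset.sum_le_sum fun β _ => ?_
      rcases (mul_nonneg (D.m_nonneg β) (Nat.cast_nonneg (D.Q β c₀).card :
        (0 : ℝ) ≤ ((D.Q β c₀).card : ℝ))).eq_or_lt with h5 | h5
      · rw [← h5, zero_mul, zero_mul]
      · apply mul_le_mul_of_nonneg_left _ h5.le
        have hm0 : D.m β ≠ 0 := fun e => by rw [e, zero_mul] at h5; exact lt_irrefl _ h5
        have hQ0 : ((D.Q β c₀).card : ℝ) ≠ 0 := fun e => by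
          rw [e, mul_zero] at h5; exact lt_irrefl _ h5
        have hmp : 0 < D.m β := lt_of_le_of_ne (D.m_nonneg β) (Ne.symm hm0)
        have hQ1 : (1 : ℝ) ≤ ((D.Q β c₀).card : ℝ) := by
          have : (D.Q β c₀).card ≠ 0 := by exact_mod_cast hQ0
          exact_mod_cast Nat.one_le_iff_ne_zero.2 this
        have h6 : ∑ j : D.J, Real.log (D.W β j).card = Real.log (D.m β) := by
          unfold Dat.m
          rw [Real.log_prod]
          intro j _ e
          exact hm0 (Finset.prod_eq_zero (Finset.mem_univ j) e)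
        rw [h6]
        apply Real.log_le_log hmp
        have h7 := hle β
        nlinarith
    have h8 : (Fintype.card D.J : ℝ) * (M / 2) ≤ Real.log N := by
      have h9 : ((Fintype.card D.J : ℝ) * (M / 2)) * N ≤ Real.log N * N := by
        have := h1.trans h2
        nlinarith
      exact le_of_mul_le_mul_right h9 hNpos
    have h10 : (Fintype.card D.J : ℝ) ≤ 2 * Real.log N / M := by
      rw [le_div_iff₀ hM]
      linarith
    linarith
  · rintro β (_ | j) x hx
    · exact (hD.famQ β).pos c₀ x hx
    · exact hD.posW β j x hx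
  · rintro β β' (_ | j) (_ | j') hj x hx y hy
    · exact absurd rfl hj
    · exact (hD.copQ β' β j' c₀ y hy x hx).symm
    · exact hD.copQ β β' j c₀ x hx y hy
    · exact hD.copW β β' j j' (fun e => hj (by rw [e])) x hx y hy
  · intro β x hx
    replace hx := fun o => (@Fintype.mem_piFinset _ (_) (_) _ _ _).1 hx o
    rw [prod_opt]
    exact hD.mem β c₀ (fun j => x (some j)) (Fintype.mem_piFinset.2 fun j => hx (some j)) _
      (hx none)
  · rw [Finset.sum_congr rfl fun β _ => hprod β, hN, hD.card c₀]
  · intro j hj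
    exact (Finset.mem_filter.1 hj).2
  · intro j hj
    have h0 : 0 ≤ Real.log (Fintype.card κ) := Real.log_natCast_nonneg _
    rcases j with _ | j
    · exfalso
      apply hj
      rw [Finset.mem_filter]
      refine ⟨Finset.mem_univ _, ?_⟩
      have h1 : ∑ β, (∏ j', ((W β j').card : ℝ)) * Real.log (W β none).card =
          D.int ω fun β c => Real.log (D.Q β c).card := by
        rw [hint]
        exact Finset.sum_congr rfl fun β _ => by rw [hprod]
      rw [h1]
      refine hDp.trans ?_
      rw [hZ]
      nlinarith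
    · rcases hD.high j with h1 | h1
      · exfalso
        apply hj
        rw [Finset.mem_filter]
        refine ⟨Finset.mem_univ _, ?_⟩
        have h2 : ∑ β, (∏ j', ((W β j').card : ℝ)) * Real.log (W β (some j)).card =
            D.int ω fun β _ => Real.log (D.W β j).card := by
          rw [hint]
          exact Finset.sum_congr rfl fun β _ => by rw [hprod]
        rw [h2, ← hZ]
        exact h1
      · exact h1

end Pool.Agent.T4h92.BW
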