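import Pool.Agent.T4h92.BW.Stm

/-!
# Sets of bounded width: the decomposition into boxes, basic facts
-/

set_option autoImplicit false

namespace Pool.Agent.T4h92.BW

open Finset
open scoped Classical Pointwise

theorem mem_mulF_iff {A B : Finset ℕ} {n : ℕ} : n ∈ mulF A B ↔ ∃ a ∈ A, ∃ b ∈ B, a * b = n := by
  unfold mulF
  simp only [Finset.mem_image, Finset.mem_product, Prod.exists]
  constructor
  · rintro ⟨a, b, ⟨ha, hb⟩, rfl⟩
    exact ⟨a, ha, b, hb, rfl⟩
  · rintro ⟨a, ha, b, hb, rfl⟩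
    exact ⟨a, b, ⟨ha, hb⟩, rfl⟩

/-- all primes of `n` divide a letter -/
def Over (L : Finset ℕ) (n : ℕ) : Prop := ∀ p : ℕ, p.Prime → p ∣ n → ∃ a ∈ L, p ∣ a

theorem Over.mul {L : Finset ℕ} {n m : ℕ} (h : Over L n) (h' : Over L m) : Over L (n * m) := by
  intro p hp hd
  rcases (Nat.Prime.dvd_mul hp).1 hd with h1 | h1
  · exact h p hp h1
  · exact h' p hp h1

theorem Over.mono {L L' : Finset ℕ} (hL : L ⊆ L') {n : ℕ} (h : Over L n) : Over L' n := by
  intro p hp hd
  obtain ⟨a, ha, h1⟩ := h p hp hd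
  exact ⟨a, hL ha, h1⟩

theorem Over.one (L : Finset ℕ) : Over L 1 := fun _ hp hd =>
  absurd (Nat.dvd_one.1 hd) hp.one_lt.ne'

theorem Over.self {L : Finset ℕ} {n : ℕ} (h : n ∈ L) : Over L n := fun _ _ hd => ⟨n, h, hd⟩

/-- the letters of `L` and `L'` are coprime -/
def Cop (L L' : Finset ℕ) : Prop := ∀ a ∈ L, ∀ b ∈ L', Nat.Coprime a b

theorem Over.coprime {L L' : Finset ℕ} (hc : Cop L L') {n m : ℕ} (hn : Over L n)
    (hm : Over L' m) : Nat.Coprime n m := by
  apply Nat.coprime_of_dvd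
  intro p hp h1 h2
  obtain ⟨a, ha, h3⟩ := hn p hp h1
  obtain ⟨b, hb, h4⟩ := hm p hp h2
  have h5 := Nat.dvd_gcd h3 h4
  rw [hc a ha b hb] at h5
  exact hp.one_lt.ne' (Nat.dvd_one.1 h5)

theorem factor_unique {L L' : Finset ℕ} (hc : Cop L L') {a a' b b' : ℕ} (ha : Over L a)
    (ha' : Over L a') (hb : Over L' b) (hb' : Over L' b') (h0 : 0 < a) (h0' : 0 < a')
    (h : a * b = a' * b') : a = a' ∧ b = b' := by
  have h1 : a ∣ a' := (Over.coprime hc ha hb').dvd_of_dvd_mul_right (h ▸ Dvd.intro _ rfl)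
  have h2 : a' ∣ a := (Over.coprime hc ha' hb).dvd_of_dvd_mul_right (h.symm ▸ Dvd.intro _ rfl)
  have h3 := Nat.dvd_antisymm h1 h2
  subst h3
  exact ⟨rfl, Nat.eq_of_mul_eq_mul_left h0 h⟩

variable {κ : Type} [Fintype κ]

/-- a family of disjoint sets of positive integers composed of the primes of `L` -/
structure IsFam (L : Finset ℕ) (A : κ → Finset ℕ) : Prop where
  pos : ∀ c, ∀ x ∈ A c, 0 < x
  ovr : ∀ c, ∀ x ∈ A c, Over L x
  dis : ∀ c c', c ≠ c' → Disjoint (A c) (A c')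

/-- the combination of two families -/
noncomputable def comb (A B : κ → Finset ℕ) (f : κ → κ → κ) (c : κ) : Finset ℕ :=
  (univ.filter fun p : κ × κ => f p.1 p.2 = c).biUnion fun p => mulF (A p.1) (B p.2)

theorem mem_comb {A B : κ → Finset ℕ} {f : κ → κ → κ} {c : κ} {n : ℕ} :
    n ∈ comb A B f c ↔ ∃ c₁ c₂, f c₁ c₂ = c ∧ ∃ a ∈ A c₁, ∃ b ∈ B c₂, a * b = n := by
  unfold comb
  simp only [Finset.mem_biUnion, Finset.mem_filter, Finset.mem_univ, true_and, mem_mulF_iff,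
    Prod.exists]

theorem card_mulF {L L' : Finset ℕ} (hc : Cop L L') {A B : Finset ℕ} (hA : ∀ a ∈ A, 0 < a)
    (hAo : ∀ a ∈ A, Over L a) (hB : ∀ b ∈ B, Over L' b) :
    (mulF A B).card = A.card * B.card := by
  unfold mulF
  rw [Finset.card_image_of_injOn, Finset.card_product]
  rintro ⟨a, b⟩ h ⟨a', b'⟩ h' he
  rw [Finset.mem_coe, Finset.mem_product] at h h'
  obtain ⟨h1, h2⟩ := factor_unique hc (hAo a h.1) (hAo a' h'.1) (hB b h.2) (hB b' h'.2)
    (hA a h.1) (hA a' h'.1) he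
  exact Prod.ext h1 h2

theorem card_comb {L L' : Finset ℕ} (hc : Cop L L') {A B : κ → Finset ℕ} (hA : IsFam L A)
    (hB : IsFam L' B) (f : κ → κ → κ) (c : κ) :
    (comb A B f c).card = ∑ p ∈ univ.filter (fun p : κ × κ => f p.1 p.2 = c),
      (A p.1).card * (B p.2).card := by
  unfold comb
  rw [Finset.card_biUnion]
  · exact Finset.sum_congr rfl fun p _ => card_mulF hc (hA.pos _) (hA.ovr _) (hB.ovr _)
  · intro p _ p' _ hpp
    change Disjoint _ _
    rw [Finset.disjoint_left]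
    intro n hn hn'
    obtain ⟨a, ha, b, hb, rfl⟩ := mem_mulF_iff.1 hn
    obtain ⟨a', ha', b', hb', he⟩ := mem_mulF_iff.1 hn'
    obtain ⟨h1, h2⟩ := factor_unique hc (hA.ovr _ a' ha') (hA.ovr _ a ha) (hB.ovr _ b' hb')
      (hB.ovr _ b hb) (hA.pos _ a' ha') (hA.pos _ a ha) he
    subst h1 h2
    apply hpp
    apply Prod.ext
    · by_contra h3
      exact (Finset.disjoint_left.1 (hA.dis _ _ h3)) ha ha'
    · by_contra h3
      exact (Finset.disjoint_left.1 (hB.dis _ _ h3)) hb hb'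

theorem isFam_comb {L L' : Finset ℕ} (hc : Cop L L') {A B : κ → Finset ℕ} (hA : IsFam L A)
    (hB : IsFam L' B) (f : κ → κ → κ) : IsFam (L ∪ L') (comb A B f) where
  pos c x hx := by
    obtain ⟨c₁, c₂, -, a, ha, b, hb, rfl⟩ := mem_comb.1 hx
    exact Nat.mul_pos (hA.pos _ a ha) (hB.pos _ b hb)
  ovr c x hx := by
    obtain ⟨c₁, c₂, -, a, ha, b, hb, rfl⟩ := mem_comb.1 hx
    exact ((hA.ovr _ a ha).mono Finset.subset_union_left).mul
      ((hB.ovr _ b hb).mono Finset.subset_union_right)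
  dis c c' hcc := by
    rw [Finset.disjoint_left]
    intro n hn hn'
    obtain ⟨c₁, c₂, h1, a, ha, b, hb, rfl⟩ := mem_comb.1 hn
    obtain ⟨d₁, d₂, h2, a', ha', b', hb', he⟩ := mem_comb.1 hn'
    obtain ⟨h3, h4⟩ := factor_unique hc (hA.ovr _ a' ha') (hA.ovr _ a ha) (hB.ovr _ b' hb')
      (hB.ovr _ b hb) (hA.pos _ a' ha') (hA.pos _ a ha) he
    subst h3 h4
    apply hcc
    have h5 : c₁ = d₁ := by
      by_contra h3
      exact (Finset.disjoint_left.1 (hA.dis _ _ h3)) ha ha'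
    have h6 : c₂ = d₂ := by
      by_contra h3
      exact (Finset.disjoint_left.1 (hB.dis _ _ h3)) hb hb'
    rw [← h1, ← h2, h5, h6]

theorem Prog.isFam {P : Finset ℕ → Prop} (hP : ∀ X, P X → ∀ x ∈ X, 0 < x) :
    ∀ {p : Prog κ}, p.Ok P → IsFam p.letters p.val
  | .leaf X, h => ⟨fun c x hx => hP _ h.1 x (Finset.mem_biUnion.2 ⟨c, Finset.mem_univ _, hx⟩),
      fun c x hx => Over.self (Finset.mem_biUnion.2 ⟨c, Finset.mem_univ _, hx⟩), h.2⟩
  | .node l r f, h => isFam_comb h.2.2 (Prog.isFam hP h.1) (Prog.isFam hP h.2.1) f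

/-- the entropy inequality -/
theorem sum_mul_log {α : Type} (s : Finset α) (t : α → ℝ) (ht : ∀ i ∈ s, 0 ≤ t i) (n : ℕ)
    (hn : s.card ≤ n) (hn0 : 0 < n) :
    (∑ i ∈ s, t i) * Real.log (∑ i ∈ s, t i) ≤
      ∑ i ∈ s, t i * Real.log (t i) + (∑ i ∈ s, t i) * Real.log n := by
  set T := ∑ i ∈ s, t i with hT
  have hT0 : 0 ≤ T := Finset.sum_nonneg ht
  have hn' : (0 : ℝ) < n := by exact_mod_cast hn0
  rcases hT0.eq_or_lt with h0 | h0
  · rw [← h0, zero_mul, zero_mul, add_zero]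
    have : ∀ i ∈ s, t i = 0 := (Finset.sum_eq_zero_iff_of_nonneg ht).1 (hT ▸ h0.symm)
    apply Finset.sum_nonneg
    intro i hi
    rw [this i hi, zero_mul]
  · have key : ∀ i ∈ s, t i * (Real.log T - Real.log n - Real.log (t i)) ≤ T / n - t i := by
      intro i hi
      rcases (ht i hi).eq_or_lt with h1 | h1
      · rw [← h1, zero_mul, sub_zero]; positivity
      · have h2 := Real.log_le_sub_one_of_pos (show 0 < T / n / t i by positivity)
        rw [Real.log_div (by positivity) h1.ne', Real.log_div h0.ne' hn'.ne'] at h2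
        have h3 := mul_le_mul_of_nonneg_left h2 h1.le
        have h4 : t i * (T / n / t i - 1) = T / n - t i := by field_simp
        linarith
    have h1 := Finset.sum_le_sum key
    rw [Finset.sum_sub_distrib, Finset.sum_const, nsmul_eq_mul, ← hT] at h1
    have h2 : ∑ i ∈ s, t i * (Real.log T - Real.log n - Real.log (t i)) =
        T * Real.log T - T * Real.log n - ∑ i ∈ s, t i * Real.log (t i) := by
      rw [hT, Finset.sum_mul, Finset.sum_mul, ← Finset.sum_sub_distrib, ← Finset.sum_sub_distrib]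
      exact Finset.sum_congr rfl fun i _ => by ring
    rw [h2] at h1
    have h3 : (s.card : ℝ) * (T / n) ≤ T := by
      have : (s.card : ℝ) ≤ n := by exact_mod_cast hn
      rw [mul_div_assoc', div_le_iff₀ hn']
      nlinarith
    linarith

end Pool.Agent.T4h92.BW
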