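import Pool.Agent.T4h92.BW.Dec1

/-!
# Sets of bounded width: the decomposition into boxes, data of a decomposition
-/

set_option autoImplicit false

namespace Pool.Agent.T4h92.BW

open Finset
open scoped Classical Pointwise

/-- the data of a decomposition: `J` the closed pieces, `ι` the boxes, `W β j` the contents of the
closed piece `j`, `Q β c` the contents of the open piece which lead to the class `c` -/
structure Dat (κ : Type) where
  J : Type
  ι : Type
  fJ : Fintype J
  fι : Fintype ι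
  W : ι → J → Finset ℕ
  Q : ι → κ → Finset ℕ

attribute [instance] Dat.fJ Dat.fι

variable {κ : Type} [Fintype κ]

/-- the number of the contents of the closed pieces -/
noncomputable def Dat.m (D : Dat κ) (β : D.ι) : ℝ := ∏ j, ((D.W β j).card : ℝ)

theorem Dat.m_nonneg (D : Dat κ) (β : D.ι) : 0 ≤ D.m β :=
  Finset.prod_nonneg fun _ _ => Nat.cast_nonneg _

/-- the sum of `φ` over all members, with the weights `ω` -/
noncomputable def Dat.int (D : Dat κ) (ω : κ → ℝ) (φ : D.ι → κ → ℝ) : ℝ :=
  ∑ β, ∑ c, ω c * (D.m β * ((D.Q β c).card : ℝ)) * φ β c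

theorem Dat.int_mono (D : Dat κ) {ω : κ → ℝ} (hω : ∀ c, 0 ≤ ω c) {φ ψ : D.ι → κ → ℝ}
    (h : ∀ β c, φ β c ≤ ψ β c) : D.int ω φ ≤ D.int ω ψ := by
  unfold Dat.int
  refine Finset.sum_le_sum fun β _ => Finset.sum_le_sum fun c _ => ?_
  exact mul_le_mul_of_nonneg_left (h β c)
    (mul_nonneg (hω c) (mul_nonneg (D.m_nonneg β) (Nat.cast_nonneg _)))

/-- the properties of a decomposition -/
structure Dat.Good (D : Dat κ) (L : Finset ℕ) (val : κ → Finset ℕ) (P : Finset ℕ → Prop)
    (ω : κ → ℝ) (M : ℝ) : Prop where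
  cardι : Fintype.card D.ι ≤ Fintype.card κ ^ Fintype.card D.J
  posW : ∀ β j, ∀ x ∈ D.W β j, 0 < x
  ovrW : ∀ β j, ∀ x ∈ D.W β j, Over L x
  copW : ∀ β β' j j', j ≠ j' → ∀ x ∈ D.W β j, ∀ y ∈ D.W β' j', Nat.Coprime x y
  famQ : ∀ β, IsFam L (D.Q β)
  copQ : ∀ β β' j c, ∀ x ∈ D.W β j, ∀ y ∈ D.Q β' c, Nat.Coprime x y
  mem : ∀ β c, ∀ x ∈ Fintype.piFinset (D.W β), ∀ q ∈ D.Q β c, (∏ j, x j) * q ∈ val c
  card : ∀ c, ((val c).card : ℝ) = ∑ β, D.m β * ((D.Q β c).card : ℝ)
  low : ∀ j, M / 2 * D.int ω (fun _ _ => 1) ≤ D.int ω fun β _ => Real.log (D.W β j).card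
  high : ∀ j, D.int ω (fun β _ => Real.log (D.W β j).card) ≤
      (M + 2 * Real.log (Fintype.card κ)) * D.int ω (fun _ _ => 1) ∨
    ∃ X, P X ∧ ∀ β, D.W β j ⊆ X

/-- the open piece is small -/
def Dat.Pend (D : Dat κ) (ω : κ → ℝ) (M : ℝ) : Prop :=
  D.int ω (fun β c => Real.log (D.Q β c).card) ≤ M / 2 * D.int ω (fun _ _ => 1)

theorem prod_opt {J : Type} [Fintype J] (x : Option J → ℕ) :
    (∏ j, x j) = (∏ j, x (some j)) * x none := by
  rw [Fintype.prod_option, mul_comm]

/-- close the open piece -/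
noncomputable def Dat.close (D : Dat κ) : Dat κ where
  J := Option D.J
  ι := D.ι × κ
  fJ := inferInstance
  fι := inferInstance
  W := fun β o => match o with
    | none => D.Q β.1 β.2
    | some j => D.W β.1 j
  Q := fun β c => if c = β.2 then {1} else ∅

theorem Dat.close_m (D : Dat κ) (β : D.ι) (c : κ) :
    D.close.m (β, c) = ((D.Q β c).card : ℝ) * D.m β := by
  unfold Dat.m
  change (∏ j : Option D.J, (((Dat.close D).W (β, c) j).card : ℝ)) = _
  rw [Fintype.prod_option]
  rfl

theorem Dat.close_int (D : Dat κ) (ω : κ → ℝ) (φ : D.close.ι → κ → ℝ) :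
    D.close.int ω φ = D.int ω fun β c => φ (β, c) c := by
  unfold Dat.int
  change (∑ β : D.ι × κ, _) = _
  rw [Fintype.sum_prod_type]
  refine Finset.sum_congr rfl fun β _ => Finset.sum_congr rfl fun c _ => ?_
  rw [Finset.sum_eq_single c]
  · rw [D.close_m]
    have h : D.close.Q (β, c) c = {1} := if_pos rfl
    rw [h, Finset.card_singleton]
    push_cast
    ring
  · intro c' _ hc
    have h : D.close.Q (β, c) c' = ∅ := if_neg hc
    rw [h, Finset.card_empty]
    simp
  · intro h
    exact absurd (Finset.mem_univ c) h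

theorem Dat.close_pend (D : Dat κ) {ω : κ → ℝ} (hω : ∀ c, 0 ≤ ω c) {M : ℝ} (hM : 0 < M) :
    D.close.Pend ω M := by
  unfold Dat.Pend
  rw [D.close_int, D.close_int]
  have h : D.int ω (fun β c => Real.log ((D.close.Q (β, c) c).card : ℝ)) = 0 := by
    unfold Dat.int
    refine Finset.sum_eq_zero fun β _ => Finset.sum_eq_zero fun c _ => ?_
    have h : D.close.Q (β, c) c = {1} := if_pos rfl
    beta_reduce
    rw [h, Finset.card_singleton, Nat.cast_one, Real.log_one, mul_zero]
  rw [h]
  have h2 : D.int ω (fun _ _ => 0) ≤ D.int ω (fun _ _ => 1) := D.int_mono hω fun _ _ => zero_le_one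
  have h3 : D.int ω (fun _ _ => 0) = 0 := by
    unfold Dat.int
    simp
  rw [h3] at h2
  positivity

theorem Dat.Good.close {D : Dat κ} {L : Finset ℕ} {val : κ → Finset ℕ} {P : Finset ℕ → Prop}
    {ω : κ → ℝ} {M : ℝ} (h : D.Good L val P ω M)
    (hlow : M / 2 * D.int ω (fun _ _ => 1) ≤ D.int ω fun β c => Real.log (D.Q β c).card)
    (hhigh : D.int ω (fun β c => Real.log (D.Q β c).card) ≤
      (M + 2 * Real.log (Fintype.card κ)) * D.int ω (fun _ _ => 1) ∨
      ∃ X, P X ∧ ∀ β c, D.Q β c ⊆ X) : D.close.Good L val P ω M where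
  cardι := by
    change Fintype.card (D.ι × κ) ≤ Fintype.card κ ^ Fintype.card (Option D.J)
    rw [Fintype.card_prod, Fintype.card_option, pow_succ]
    exact Nat.mul_le_mul_right _ h.cardι
  posW := by
    rintro ⟨β, c⟩ (_ | j) x hx
    · exact (h.famQ β).pos c x hx
    · exact h.posW β j x hx
  ovrW := by
    rintro ⟨β, c⟩ (_ | j) x hx
    · exact (h.famQ β).ovr c x hx
    · exact h.ovrW β j x hx
  copW := by
    rintro ⟨β, c⟩ ⟨β', c'⟩ (_ | j) (_ | j') hj x hx y hy
    · exact absurd rfl hj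
    · exact (h.copQ β' β j' c y hy x hx).symm
    · exact h.copQ β β' j c' x hx y hy
    · exact h.copW β β' j j' (fun e => hj (by rw [e])) x hx y hy
  famQ := by
    rintro ⟨β, c⟩
    refine ⟨fun c' x hx => ?_, fun c' x hx => ?_, fun c' c'' hc => ?_⟩
    · by_cases h1 : c' = c
      · have h2 : D.close.Q (β, c) c' = {1} := if_pos h1
        rw [h2, Finset.mem_singleton] at hx
        rw [hx]; exact one_pos
      · have h2 : D.close.Q (β, c) c' = ∅ := if_neg h1
        rw [h2] at hx
        exact absurd hx (Finset.notMem_empty _)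
    · by_cases h1 : c' = c
      · have h2 : D.close.Q (β, c) c' = {1} := if_pos h1
        rw [h2, Finset.mem_singleton] at hx
        rw [hx]; exact Over.one L
      · have h2 : D.close.Q (β, c) c' = ∅ := if_neg h1
        rw [h2] at hx
        exact absurd hx (Finset.notMem_empty _)
    · by_cases h1 : c' = c
      · have h2 : D.close.Q (β, c) c'' = ∅ := if_neg fun e => hc (h1.trans e.symm)
        rw [h2]
        exact Finset.disjoint_empty_right _
      · have h2 : D.close.Q (β, c) c' = ∅ := if_neg h1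
        rw [h2]
        exact Finset.disjoint_empty_left _
  copQ := by
    rintro ⟨β, c⟩ ⟨β', c'⟩ j c'' x hx y hy
    by_cases h1 : c'' = c'
    · have h2 : D.close.Q (β', c') c'' = {1} := if_pos h1
      rw [h2, Finset.mem_singleton] at hy
      rw [hy]
      exact Nat.coprime_one_right x
    · have h2 : D.close.Q (β', c') c'' = ∅ := if_neg h1
      rw [h2] at hy
      exact absurd hy (Finset.notMem_empty _)
  mem := by
    rintro ⟨β, c⟩ c' x hx q hq
    by_cases h1 : c' = c
    · have h2 : D.close.Q (β, c) c' = {1} := if_pos h1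
      rw [h2, Finset.mem_singleton] at hq
      rw [hq, mul_one, h1]
      rw [Fintype.mem_piFinset] at hx
      have h4 := h.mem β c (fun j => x (some j)) (Fintype.mem_piFinset.2 fun j => hx (some j)) _
        (hx none)
      have h3 : (∏ j, x j) = (∏ j, x (some j)) * x none := prod_opt x
      exact (congrArg (fun n => n ∈ val c) h3).mpr h4
    · have h2 : D.close.Q (β, c) c' = ∅ := if_neg h1
      rw [h2] at hq
      exact absurd hq (Finset.notMem_empty _)
  card := by
    intro c
    change _ = ∑ β : D.ι × κ, _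
    rw [Fintype.sum_prod_type, h.card c]
    refine Finset.sum_congr rfl fun β _ => ?_
    rw [Finset.sum_eq_single c]
    · rw [D.close_m]
      have h2 : D.close.Q (β, c) c = {1} := if_pos rfl
      rw [h2, Finset.card_singleton]
      push_cast
      ring
    · intro c' _ hc
      have h2 : D.close.Q (β, c') c = ∅ := if_neg (Ne.symm hc)
      rw [h2, Finset.card_empty]
      simp
    · intro h2
      exact absurd (Finset.mem_univ c) h2
  low := by
    intro j
    rw [D.close_int, D.close_int]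
    rcases j with _ | j
    · exact hlow
    · exact h.low j
  high := by
    intro j
    rw [D.close_int, D.close_int]
    rcases j with _ | j
    · rcases hhigh with h1 | ⟨X, hX, h1⟩
      · exact Or.inl h1
      · exact Or.inr ⟨X, hX, fun β => h1 β.1 β.2⟩
    · rcases h.high j with h1 | ⟨X, hX, h1⟩
      · exact Or.inl h1
      · exact Or.inr ⟨X, hX, fun β => h1 β.1⟩

theorem Dat.Good.finish {D : Dat κ} {L : Finset ℕ} {val : κ → Finset ℕ} {P : Finset ℕ → Prop}
    {ω : κ → ℝ} {M : ℝ} (h : D.Good L val P ω M) (hω : ∀ c, 0 ≤ ω c) (hM : 0 < M)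
    (hhigh : D.int ω (fun β c => Real.log (D.Q β c).card) ≤
      (M + 2 * Real.log (Fintype.card κ)) * D.int ω (fun _ _ => 1) ∨
      ∃ X, P X ∧ ∀ β c, D.Q β c ⊆ X) : ∃ D : Dat κ, D.Good L val P ω M ∧ D.Pend ω M := by
  by_cases hp : D.Pend ω M
  · exact ⟨D, h, hp⟩
  · unfold Dat.Pend at hp
    push Not at hp
    exact ⟨D.close, h.close hp.le hhigh, D.close_pend hω hM⟩

end Pool.Agent.T4h92.BW
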