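import Pool.Agent.T4h92.BW.Dec2

/-!
# Sets of bounded width: the decomposition into boxes, combination of two decompositions
-/

set_option autoImplicit false

namespace Pool.Agent.T4h92.BW

open Finset
open scoped Classical Pointwise

variable {κ : Type} [Fintype κ]

/-- the combination of two decompositions -/
noncomputable def Dat.node (D E : Dat κ) (f : κ → κ → κ) : Dat κ where
  J := D.J ⊕ E.J
  ι := D.ι × E.ι
  fJ := inferInstance
  fι := inferInstance
  W := fun β => Sum.elim (D.W β.1) (E.W β.2)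
  Q := fun β => comb (D.Q β.1) (E.Q β.2) f

theorem Dat.node_m (D E : Dat κ) (f : κ → κ → κ) (β : D.ι) (γ : E.ι) :
    (D.node E f).m (β, γ) = D.m β * E.m γ := by
  unfold Dat.m
  change (∏ j : D.J ⊕ E.J, (((Dat.node D E f).W (β, γ) j).card : ℝ)) = _
  rw [Fintype.prod_sum_type]
  rfl

/-- the sum over the fibres of `f` -/
theorem sum_fib (f : κ → κ → κ) (ω : κ → ℝ) (g : κ → κ → ℝ) :
    ∑ c, ω c * ∑ p ∈ univ.filter (fun p : κ × κ => f p.1 p.2 = c), g p.1 p.2 =
      ∑ c₁, ∑ c₂, ω (f c₁ c₂) * g c₁ c₂ := by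
  rw [← Fintype.sum_prod_type (f := fun p : κ × κ => ω (f p.1 p.2) * g p.1 p.2)]
  rw [← Finset.sum_fiberwise (s := (univ : Finset (κ × κ))) (g := fun p : κ × κ => f p.1 p.2)]
  refine Finset.sum_congr rfl fun c _ => ?_
  rw [Finset.mul_sum]
  refine Finset.sum_congr rfl fun p hp => ?_
  rw [Finset.mem_filter] at hp
  rw [hp.2]

/-- the weights for the left factor -/
noncomputable def wl (f : κ → κ → κ) (ω : κ → ℝ) (B : κ → Finset ℕ) (c : κ) : ℝ :=
  ∑ c₂, ω (f c c₂) * ((B c₂).card : ℝ)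

/-- the weights for the right factor -/
noncomputable def wr (f : κ → κ → κ) (ω : κ → ℝ) (A : κ → Finset ℕ) (c : κ) : ℝ :=
  ∑ c₁, ω (f c₁ c) * ((A c₁).card : ℝ)

section
variable {D E : Dat κ} {L L' : Finset ℕ} {A B : κ → Finset ℕ} {f : κ → κ → κ} {ω : κ → ℝ}

theorem node_int_left (hE : ∀ c, ((B c).card : ℝ) = ∑ γ, E.m γ * ((E.Q γ c).card : ℝ))
    (φ : D.ι → κ → ℝ) :
    ∑ β, ∑ γ, ∑ c, ω c * (D.m β * E.m γ * ∑ p ∈ univ.filter (fun p : κ × κ => f p.1 p.2 = c),
      ((D.Q β p.1).card : ℝ) * ((E.Q γ p.2).card : ℝ) * φ β p.1) = D.int (wl f ω B) φ := by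
  unfold Dat.int
  refine Finset.sum_congr rfl fun β _ => ?_
  have h1 : ∀ γ, ∑ c, ω c * (D.m β * E.m γ * ∑ p ∈ univ.filter (fun p : κ × κ => f p.1 p.2 = c),
      ((D.Q β p.1).card : ℝ) * ((E.Q γ p.2).card : ℝ) * φ β p.1) =
      ∑ c₁, ∑ c₂, ω (f c₁ c₂) * (D.m β * E.m γ *
        (((D.Q β c₁).card : ℝ) * ((E.Q γ c₂).card : ℝ) * φ β c₁)) := by
    intro γ
    rw [← sum_fib f ω fun c₁ c₂ => D.m β * E.m γ *
        (((D.Q β c₁).card : ℝ) * ((E.Q γ c₂).card : ℝ) * φ β c₁)]
    refine Finset.sum_congr rfl fun c _ => ?_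
    rw [Finset.mul_sum]
  rw [Finset.sum_congr rfl fun γ _ => h1 γ, Finset.sum_comm]
  refine Finset.sum_congr rfl fun c₁ _ => ?_
  rw [Finset.sum_comm]
  unfold wl
  rw [Finset.sum_mul, Finset.sum_mul]
  refine Finset.sum_congr rfl fun c₂ _ => ?_
  rw [hE c₂, Finset.mul_sum, Finset.sum_mul, Finset.sum_mul]
  refine Finset.sum_congr rfl fun γ _ => ?_
  ring

theorem node_int_right (hD : ∀ c, ((A c).card : ℝ) = ∑ β, D.m β * ((D.Q β c).card : ℝ))
    (φ : E.ι → κ → ℝ) :
    ∑ β, ∑ γ, ∑ c, ω c * (D.m β * E.m γ * ∑ p ∈ univ.filter (fun p : κ × κ => f p.1 p.2 = c),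
      ((D.Q β p.1).card : ℝ) * ((E.Q γ p.2).card : ℝ) * φ γ p.2) = E.int (wr f ω A) φ := by
  rw [Finset.sum_comm]
  unfold Dat.int
  refine Finset.sum_congr rfl fun γ _ => ?_
  have h1 : ∀ β, ∑ c, ω c * (D.m β * E.m γ * ∑ p ∈ univ.filter (fun p : κ × κ => f p.1 p.2 = c),
      ((D.Q β p.1).card : ℝ) * ((E.Q γ p.2).card : ℝ) * φ γ p.2) =
      ∑ c₂, ∑ c₁, ω (f c₁ c₂) * (D.m β * E.m γ *
        (((D.Q β c₁).card : ℝ) * ((E.Q γ c₂).card : ℝ) * φ γ c₂)) := by
    intro β
    rw [Finset.sum_comm, ← sum_fib f ω fun c₁ c₂ => D.m β * E.m γ *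
        (((D.Q β c₁).card : ℝ) * ((E.Q γ c₂).card : ℝ) * φ γ c₂)]
    refine Finset.sum_congr rfl fun c _ => ?_
    rw [Finset.mul_sum]
  rw [Finset.sum_congr rfl fun β _ => h1 β, Finset.sum_comm]
  refine Finset.sum_congr rfl fun c₂ _ => ?_
  rw [Finset.sum_comm]
  unfold wr
  rw [Finset.sum_mul, Finset.sum_mul]
  refine Finset.sum_congr rfl fun c₁ _ => ?_
  rw [hD c₁, Finset.mul_sum, Finset.sum_mul, Finset.sum_mul]
  refine Finset.sum_congr rfl fun β _ => ?_
  ring

end

theorem node_int (D E : Dat κ) (f : κ → κ → κ) (ω : κ → ℝ) (φ : D.ι → E.ι → κ → ℝ) :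
    (D.node E f).int ω (fun β c => φ β.1 β.2 c) =
      ∑ β, ∑ γ, ∑ c, ω c * (D.m β * E.m γ * ((comb (D.Q β) (E.Q γ) f c).card : ℝ)) * φ β γ c := by
  unfold Dat.int
  change (∑ β : D.ι × E.ι, _) = _
  rw [Fintype.sum_prod_type]
  refine Finset.sum_congr rfl fun β _ => Finset.sum_congr rfl fun γ _ =>
    Finset.sum_congr rfl fun c _ => ?_
  rw [D.node_m E f]
  rfl

theorem card_comb_real {L L' : Finset ℕ} (hc : Cop L L') {A B : κ → Finset ℕ} (hA : IsFam L A)
    (hB : IsFam L' B) (f : κ → κ → κ) (c : κ) :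
    ((comb A B f c).card : ℝ) = ∑ p ∈ univ.filter (fun p : κ × κ => f p.1 p.2 = c),
      ((A p.1).card : ℝ) * ((B p.2).card : ℝ) := by
  rw [card_comb hc hA hB]
  push_cast
  rfl

theorem Dat.Good.node {D E : Dat κ} {L L' : Finset ℕ} {A B : κ → Finset ℕ}
    {P : Finset ℕ → Prop} {f : κ → κ → κ} {ω : κ → ℝ} {M : ℝ} (hc : Cop L L')
    (hA : IsFam L A) (hB : IsFam L' B) (hω : ∀ c, 0 ≤ ω c) (h : D.Good L A P (wl f ω B) M)
    (hp : D.Pend (wl f ω B) M) (h' : E.Good L' B P (wr f ω A) M) (hp' : E.Pend (wr f ω A) M)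
    (hκ : 0 < Fintype.card κ) :
    (D.node E f).Good (L ∪ L') (comb A B f) P ω M ∧
    (D.node E f).int ω (fun β c => Real.log ((D.node E f).Q β c).card) ≤
      (M + 2 * Real.log (Fintype.card κ)) * (D.node E f).int ω (fun _ _ => 1) := by
  have iL : ∀ φ : D.ι → ℝ, (D.node E f).int ω (fun β _ => φ β.1) =
      D.int (wl f ω B) fun β _ => φ β := by
    intro φ
    rw [node_int D E f ω fun β _ _ => φ β, ← node_int_left (f := f) (ω := ω) h'.card]
    refine Finset.sum_congr rfl fun β _ => Finset.sum_congr rfl fun γ _ =>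
      Finset.sum_congr rfl fun c _ => ?_
    rw [card_comb_real hc (h.famQ β) (h'.famQ γ), Finset.mul_sum, Finset.mul_sum, Finset.mul_sum,
      Finset.mul_sum, Finset.sum_mul]
    exact Finset.sum_congr rfl fun p _ => by ring
  have iR : ∀ φ : E.ι → ℝ, (D.node E f).int ω (fun β _ => φ β.2) =
      E.int (wr f ω A) fun β _ => φ β := by
    intro φ
    rw [node_int D E f ω fun _ γ _ => φ γ, ← node_int_right (f := f) (ω := ω) h.card]
    refine Finset.sum_congr rfl fun β _ => Finset.sum_congr rfl fun γ _ =>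
      Finset.sum_congr rfl fun c _ => ?_
    rw [card_comb_real hc (h.famQ β) (h'.famQ γ), Finset.mul_sum, Finset.mul_sum, Finset.mul_sum,
      Finset.mul_sum, Finset.sum_mul]
    exact Finset.sum_congr rfl fun p _ => by ring
  have i1L := iL fun _ => 1
  have i1R := iR fun _ => 1
  refine ⟨?_, ?_⟩
  · refine ⟨?_, ?_, ?_, ?_, ?_, ?_, ?_, ?_, ?_, ?_⟩
    · change Fintype.card (D.ι × E.ι) ≤ Fintype.card κ ^ Fintype.card (D.J ⊕ E.J)
      rw [Fintype.card_prod, Fintype.card_sum, pow_add]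
      exact Nat.mul_le_mul h.cardι h'.cardι
    · rintro ⟨β, γ⟩ (j | j) x hx
      · exact h.posW β j x hx
      · exact h'.posW γ j x hx
    · rintro ⟨β, γ⟩ (j | j) x hx
      · exact (h.ovrW β j x hx).mono Finset.subset_union_left
      · exact (h'.ovrW γ j x hx).mono Finset.subset_union_right
    · rintro ⟨β, γ⟩ ⟨β', γ'⟩ (j | j) (j' | j') hj x hx y hy
      · exact h.copW β β' j j' (fun e => hj (by rw [e])) x hx y hy
      · exact Over.coprime hc (h.ovrW β j x hx) (h'.ovrW γ' j' y hy)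
      · exact (Over.coprime hc (h.ovrW β' j' y hy) (h'.ovrW γ j x hx)).symm
      · exact h'.copW γ γ' j j' (fun e => hj (by rw [e])) x hx y hy
    · rintro ⟨β, γ⟩
      exact isFam_comb hc (h.famQ β) (h'.famQ γ) f
    · rintro ⟨β, γ⟩ ⟨β', γ'⟩ j c x hx y hy
      obtain ⟨c₁, c₂, -, a, ha, b, hb, rfl⟩ := mem_comb.1 hy
      rcases j with j | j
      · exact Nat.Coprime.mul_right (h.copQ β β' j c₁ x hx a ha)
          (Over.coprime hc (h.ovrW β j x hx) ((h'.famQ γ').ovr c₂ b hb))
      · exact Nat.Coprime.mul_right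
          (Over.coprime hc ((h.famQ β').ovr c₁ a ha) (h'.ovrW γ j x hx)).symm
          (h'.copQ γ γ' j c₂ x hx b hb)
    · rintro ⟨β, γ⟩ c x hx q hq
      obtain ⟨c₁, c₂, hcc, a, ha, b, hb, rfl⟩ := mem_comb.1 hq
      rw [Fintype.mem_piFinset] at hx
      have h1 := h.mem β c₁ (fun j => x (Sum.inl j))
        (Fintype.mem_piFinset.2 fun j => hx (Sum.inl j)) a ha
      have h2 := h'.mem γ c₂ (fun j => x (Sum.inr j))
        (Fintype.mem_piFinset.2 fun j => hx (Sum.inr j)) b hb
      have h3 : (∏ j : D.J ⊕ E.J, x j) = (∏ j, x (Sum.inl j)) * ∏ j, x (Sum.inr j) :=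
        Fintype.prod_sum_type _
      have h4 : (∏ j : D.J ⊕ E.J, x j) * (a * b) ∈ comb A B f c := by
        rw [h3]
        exact mem_comb.2 ⟨c₁, c₂, hcc, _, h1, _, h2, by ring⟩
      exact h4
    · intro c
      rw [card_comb_real hc hA hB]
      change _ = ∑ β : D.ι × E.ι, _
      rw [Fintype.sum_prod_type]
      have h1 : ∀ β γ, (D.node E f).m (β, γ) * (((D.node E f).Q (β, γ) c).card : ℝ) =
          ∑ p ∈ univ.filter (fun p : κ × κ => f p.1 p.2 = c),
            (D.m β * ((D.Q β p.1).card : ℝ)) * (E.m γ * ((E.Q γ p.2).card : ℝ)) := by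
        intro β γ
        rw [D.node_m E f]
        change D.m β * E.m γ * ((comb (D.Q β) (E.Q γ) f c).card : ℝ) = _
        rw [card_comb_real hc (h.famQ β) (h'.famQ γ), Finset.mul_sum]
        exact Finset.sum_congr rfl fun p _ => by ring
      rw [Finset.sum_congr rfl fun β _ => Finset.sum_congr rfl fun γ _ => h1 β γ]
      rw [Finset.sum_congr rfl fun β _ => Finset.sum_comm]
      rw [Finset.sum_comm]
      refine Finset.sum_congr rfl fun p _ => ?_
      rw [h.card, h'.card, Finset.sum_mul_sum]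
    · rintro (j | j)
      · have h1 := iL fun β => Real.log (D.W β j).card
        rw [i1L]
        exact (h.low j).trans_eq h1.symm
      · have h1 := iR fun β => Real.log (E.W β j).card
        rw [i1R]
        exact (h'.low j).trans_eq h1.symm
    · rintro (j | j)
      · have h1 := iL fun β => Real.log (D.W β j).card
        rcases h.high j with h2 | ⟨X, hX, h2⟩
        · left
          rw [i1L]
          exact h1.trans_le h2
        · exact Or.inr ⟨X, hX, fun β => h2 β.1⟩
      · have h1 := iR fun β => Real.log (E.W β j).card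
        rcases h'.high j with h2 | ⟨X, hX, h2⟩
        · left
          rw [i1R]
          exact h1.trans_le h2
        · exact Or.inr ⟨X, hX, fun β => h2 β.2⟩
  · have key : (D.node E f).int ω (fun β c => Real.log ((D.node E f).Q β c).card) ≤
        (D.int (wl f ω B) fun β c => Real.log (D.Q β c).card) +
        (E.int (wr f ω A) fun β c => Real.log (E.Q β c).card) +
        2 * Real.log (Fintype.card κ) * (D.node E f).int ω (fun _ _ => 1) := by
      have e1 := node_int D E f ω fun β γ c => Real.log (comb (D.Q β) (E.Q γ) f c).card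
      have e2 := node_int D E f ω fun _ _ _ => 1
      have e3 : (D.node E f).int ω (fun β c => Real.log ((D.node E f).Q β c).card) =
          (D.node E f).int ω (fun β c => Real.log (comb (D.Q β.1) (E.Q β.2) f c).card) := rfl
      rw [e3, e1, e2, ← node_int_left (f := f) (ω := ω) h'.card,
        ← node_int_right (f := f) (ω := ω) h.card, Finset.mul_sum, ← Finset.sum_add_distrib,
        ← Finset.sum_add_distrib]
      refine Finset.sum_le_sum fun β _ => ?_
      rw [Finset.mul_sum, ← Finset.sum_add_distrib, ← Finset.sum_add_distrib]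
      refine Finset.sum_le_sum fun γ _ => ?_
      rw [Finset.mul_sum, ← Finset.sum_add_distrib, ← Finset.sum_add_distrib]
      refine Finset.sum_le_sum fun c _ => ?_
      have h1 := sum_mul_log (univ.filter (fun p : κ × κ => f p.1 p.2 = c))
        (fun p => ((D.Q β p.1).card : ℝ) * ((E.Q γ p.2).card : ℝ)) (fun p _ => by positivity)
        (Fintype.card κ * Fintype.card κ) (by
          refine (Finset.card_le_univ _).trans ?_
          rw [Fintype.card_prod]) (Nat.mul_pos hκ hκ)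
      rw [← card_comb_real hc (h.famQ β) (h'.famQ γ)] at h1
      have h2 : ∑ p ∈ univ.filter (fun p : κ × κ => f p.1 p.2 = c),
          (((D.Q β p.1).card : ℝ) * ((E.Q γ p.2).card : ℝ)) *
            Real.log (((D.Q β p.1).card : ℝ) * ((E.Q γ p.2).card : ℝ)) =
          ∑ p ∈ univ.filter (fun p : κ × κ => f p.1 p.2 = c),
          ((D.Q β p.1).card : ℝ) * ((E.Q γ p.2).card : ℝ) * Real.log (D.Q β p.1).card +
          ∑ p ∈ univ.filter (fun p : κ × κ => f p.1 p.2 = c),
          ((D.Q β p.1).card : ℝ) * ((E.Q γ p.2).card : ℝ) * Real.log (E.Q γ p.2).card := by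
        rw [← Finset.sum_add_distrib]
        refine Finset.sum_congr rfl fun p _ => ?_
        rcases Nat.eq_zero_or_pos (D.Q β p.1).card with h3 | h3
        · rw [h3]; simp
        · rcases Nat.eq_zero_or_pos (E.Q γ p.2).card with h4 | h4
          · rw [h4]; simp
          · rw [Real.log_mul (by positivity) (by positivity)]
            ring
      rw [h2] at h1
      have h3 : Real.log ((Fintype.card κ * Fintype.card κ : ℕ) : ℝ) =
          2 * Real.log (Fintype.card κ) := by
        push_cast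
        rw [Real.log_mul (by positivity) (by positivity)]
        ring
      rw [h3] at h1
      have h4 : 0 ≤ ω c * (D.m β * E.m γ) :=
        mul_nonneg (hω c) (mul_nonneg (D.m_nonneg β) (E.m_nonneg γ))
      have h5 := mul_le_mul_of_nonneg_left h1 h4
      linarith
    have h1 : D.int (wl f ω B) (fun _ _ => 1) = (D.node E f).int ω (fun _ _ => 1) := i1L.symm
    have h2 : E.int (wr f ω A) (fun _ _ => 1) = (D.node E f).int ω (fun _ _ => 1) := i1R.symm
    unfold Dat.Pend at hp hp'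
    rw [h1] at hp
    rw [h2] at hp'
    linarith

theorem wl_nonneg {f : κ → κ → κ} {ω : κ → ℝ} (hω : ∀ c, 0 ≤ ω c) (B : κ → Finset ℕ) (c : κ) :
    0 ≤ wl f ω B c :=
  Finset.sum_nonneg fun _ _ => mul_nonneg (hω _) (Nat.cast_nonneg _)

theorem wr_nonneg {f : κ → κ → κ} {ω : κ → ℝ} (hω : ∀ c, 0 ≤ ω c) (A : κ → Finset ℕ) (c : κ) :
    0 ≤ wr f ω A c :=
  Finset.sum_nonneg fun _ _ => mul_nonneg (hω _) (Nat.cast_nonneg _)

/-- every program has a decomposition -/
theorem exists_dat {P : Finset ℕ → Prop} (hP : ∀ X, P X → ∀ x ∈ X, 0 < x) {M : ℝ} (hM : 0 < M)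
    (hκ : 0 < Fintype.card κ) :
    ∀ (p : Prog κ), p.Ok P → ∀ ω : κ → ℝ, (∀ c, 0 ≤ ω c) →
      ∃ D : Dat κ, D.Good p.letters p.val P ω M ∧ D.Pend ω M := by
  intro p
  induction p with
  | leaf X =>
    intro hok ω hω
    have hfam : IsFam (Prog.leaf X).letters X := Prog.isFam hP hok
    set D : Dat κ :=
      { J := Empty
        ι := Unit
        fJ := inferInstance
        fι := inferInstance
        W := fun _ j => j.elim
        Q := fun _ => X } with hD
    have hm : ∀ β, D.m β = 1 := fun β => by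
      unfold Dat.m
      exact Fintype.prod_empty _
    refine Dat.Good.finish (D := D) ?_ hω hM (Or.inr ⟨univ.biUnion X, hok.1, fun _ c => ?_⟩)
    · refine ⟨?_, fun _ j => j.elim, fun _ j => j.elim, fun _ _ j => j.elim, fun _ => hfam,
        fun _ _ j => j.elim, ?_, ?_, fun j => j.elim, fun j => j.elim⟩
      · change Fintype.card Unit ≤ Fintype.card κ ^ Fintype.card Empty
        simp
      · intro β c x hx q hq
        have h1 : (∏ j : Empty, x j) = 1 := Fintype.prod_empty _
        have h2 : (∏ j : Empty, x j) * q ∈ X c := by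
          rw [h1, one_mul]; exact hq
        exact h2
      · intro c
        change _ = ∑ β : Unit, _
        rw [Fintype.sum_unique, hm, one_mul]
        rfl
    · exact Finset.subset_biUnion_of_mem X (Finset.mem_univ c)
  | node l r f ihl ihr =>
    intro hok ω hω
    have hA := Prog.isFam hP hok.1
    have hB := Prog.isFam hP hok.2.1
    obtain ⟨D, hD, hDp⟩ := ihl hok.1 (wl f ω r.val) (wl_nonneg hω _)
    obtain ⟨E, hE, hEp⟩ := ihr hok.2.1 (wr f ω l.val) (wr_nonneg hω _)
    obtain ⟨h1, h2⟩ := Dat.Good.node hok.2.2 hA hB hω hD hDp hE hEp hκ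
    exact Dat.Good.finish h1 hω hM (Or.inl h2)

end Pool.Agent.T4h92.BW
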