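import Pool.Agent.T4h92.BW.Stm

/-!
# Sets of bounded width: supersets which are only slightly larger
-/

set_option autoImplicit false

namespace Pool.Agent.T4h92.BW

open Finset
open scoped Classical Pointwise

theorem prods_mono (k : ℕ) {A A' : Finset ℕ} (h : A ⊆ A') :
    ((Fintype.piFinset fun _ : Fin k => A).image fun f => ∏ i, f i) ⊆
      ((Fintype.piFinset fun _ : Fin k => A').image fun f => ∏ i, f i) := by
  apply Finset.image_subset_image
  intro f hf
  rw [Fintype.mem_piFinset] at hf ⊢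
  exact fun i => h (hf i)

theorem sums_mono (k : ℕ) {A A' : Finset ℕ} (h : A ⊆ A') (B : Finset ℤ) :
    (((Fintype.piFinset fun _ : Fin k => A) ×ˢ B).image
      fun x => (∑ i, (x.1 i : ℤ)) + x.2) ⊆
    (((Fintype.piFinset fun _ : Fin k => A') ×ˢ B).image
      fun x => (∑ i, (x.1 i : ℤ)) + x.2) := by
  apply Finset.image_subset_image
  intro f hf
  rw [Finset.mem_product, Fintype.mem_piFinset] at hf ⊢
  exact ⟨fun i => h (hf.1 i), hf.2⟩

theorem robust (hF : T_FIN) (k : ℕ) (hk : 1 ≤ k) (w K : ℕ) (ε : ℝ) (hε : 0 < ε) :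
    ∃ δ c : ℝ, 0 < δ ∧ 0 < c ∧ ∀ (L : Finset ℕ) (F : Fin w → Finset ℕ), Fam w k K L F →
      ∀ (i : Fin w) (A : Finset ℕ), A.Nonempty → F i ⊆ A →
      (A.card : ℝ) ^ (1 - δ) ≤ (F i).card →
      c * (A.card : ℝ) ^ ((k : ℝ) - ε) ≤
          (((Fintype.piFinset fun _ : Fin k => A).image fun f => ∏ i, f i).card : ℝ) ∨
      ∀ B : Finset ℤ, B.Nonempty →
        c * (A.card : ℝ) ^ ((k : ℝ) - ε) * (B.card : ℝ) ^ (1 - ε) ≤
          ((((Fintype.piFinset fun _ : Fin k => A) ×ˢ B).image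
            fun x => (∑ i, (x.1 i : ℤ)) + x.2).card : ℝ) := by
  have hk' : (1 : ℝ) ≤ k := by exact_mod_cast hk
  set ε' := min (ε / 2) (1 / 2) with hε'
  have hε'0 : 0 < ε' := lt_min (by positivity) (by norm_num)
  have hε'1 : ε' ≤ 1 / 2 := min_le_right _ _
  have hε'2 : ε' ≤ ε / 2 := min_le_left _ _
  obtain ⟨c, hc, h⟩ := hF k hk w K ε' hε'0
  set δ := min (ε / (2 * k)) (1 / 2) with hδ
  have hδ0 : 0 < δ := lt_min (by positivity) (by norm_num)
  have hδk : δ * k ≤ ε / 2 := by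
    have h1 : δ ≤ ε / (2 * k) := min_le_left _ _
    rw [le_div_iff₀ (by positivity)] at h1
    linarith
  refine ⟨δ, c, hδ0, hc, ?_⟩
  intro L F hFam i A hA hsub hcard
  have hApos : (0 : ℝ) < A.card := by exact_mod_cast hA.card_pos
  have hA1 : (1 : ℝ) ≤ A.card := by exact_mod_cast hA.card_pos
  have hFpos : (0 : ℝ) < (F i).card := lt_of_lt_of_le (Real.rpow_pos_of_pos hApos _) hcard
  have hFne : (F i).Nonempty := by
    rw [← Finset.card_pos]; exact_mod_cast hFpos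
  have key : (A.card : ℝ) ^ ((k : ℝ) - ε) ≤ ((F i).card : ℝ) ^ ((k : ℝ) - ε') := by
    calc (A.card : ℝ) ^ ((k : ℝ) - ε) ≤ (A.card : ℝ) ^ ((1 - δ) * ((k : ℝ) - ε')) := by
          apply Real.rpow_le_rpow_of_exponent_le hA1
          nlinarith
      _ = ((A.card : ℝ) ^ (1 - δ)) ^ ((k : ℝ) - ε') := Real.rpow_mul hApos.le _ _
      _ ≤ ((F i).card : ℝ) ^ ((k : ℝ) - ε') :=
          Real.rpow_le_rpow (by positivity) hcard (by linarith)
  rcases h L F hFam i hFne with h1 | h1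
  · left
    refine (mul_le_mul_of_nonneg_left key hc.le).trans (h1.trans ?_)
    exact_mod_cast Finset.card_le_card (prods_mono k hsub)
  · right
    intro B hB
    have hB1 : (1 : ℝ) ≤ B.card := by exact_mod_cast hB.card_pos
    have h2 : (B.card : ℝ) ^ (1 - ε) ≤ (B.card : ℝ) ^ (1 - ε') :=
      Real.rpow_le_rpow_of_exponent_le hB1 (by linarith)
    calc c * (A.card : ℝ) ^ ((k : ℝ) - ε) * (B.card : ℝ) ^ (1 - ε)
        ≤ c * ((F i).card : ℝ) ^ ((k : ℝ) - ε') * (B.card : ℝ) ^ (1 - ε') := by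
          apply mul_le_mul (mul_le_mul_of_nonneg_left key hc.le) h2 (by positivity) (by positivity)
      _ ≤ _ := h1 B hB
      _ ≤ _ := by exact_mod_cast Finset.card_le_card (sums_mono k hsub B)

end Pool.Agent.T4h92.BW
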