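import Mathlib

/-!
# Sums and products of sets of bounded width: definitions and statements of the parts
-/

set_option autoImplicit false

namespace Pool.Agent.T4h92.BW

open Finset
open scoped Classical Pointwise

/-- the set of the products of an element of `A` and an element of `B` -/
def mulF (A B : Finset ℕ) : Finset ℕ := (A ×ˢ B).image fun q => q.1 * q.2

/-- `Adm k K X`: the members of `X` are positive and every number has at most `K` ordered
factorisations into `k` members of `X` -/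
def Adm (k K : ℕ) (X : Finset ℕ) : Prop :=
  (∀ x ∈ X, 0 < x) ∧
    ∀ u : ℕ, ((Fintype.piFinset fun _ : Fin k => X).filter fun f => ∏ i, f i = u).card ≤ K

/-- Families `A 0, ..., A (w - 1)` of finite sets of positive integers; `L` is the set of the letters.
A leaf is a family of subsets of an admissible alphabet `X`. Two families with coprime letters are
combined to a new one, whose members are unions of product sets `A i * B j`. -/
inductive Fam (w k K : ℕ) : Finset ℕ → (Fin w → Finset ℕ) → Prop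
  | leaf (X : Finset ℕ) (A : Fin w → Finset ℕ) : Adm k K X → (∀ i, A i ⊆ X) → Fam w k K X A
  | node (L L' : Finset ℕ) (A B C : Fin w → Finset ℕ) (R : Fin w → Finset (Fin w × Fin w)) :
      Fam w k K L A → Fam w k K L' B → (∀ a ∈ L, ∀ b ∈ L', Nat.Coprime a b) →
      (∀ i, C i = (R i).biUnion fun p => mulF (A p.1) (B p.2)) → Fam w k K (L ∪ L') C

/-- deterministic programs: the classes of the letters are disjoint, and the class of a product
depends on the classes of the factors -/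
inductive Prog (κ : Type) : Type
  | leaf (X : κ → Finset ℕ) : Prog κ
  | node (l r : Prog κ) (f : κ → κ → κ) : Prog κ

section
variable {κ : Type} [Fintype κ]

/-- the members of the class `c` -/
noncomputable def Prog.val : Prog κ → κ → Finset ℕ
  | .leaf X => X
  | .node l r f => fun c =>
      (univ.filter fun p : κ × κ => f p.1 p.2 = c).biUnion fun p => mulF (l.val p.1) (r.val p.2)

/-- the letters -/
noncomputable def Prog.letters : Prog κ → Finset ℕ
  | .leaf X => univ.biUnion X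
  | .node l r _ => l.letters ∪ r.letters

/-- the alphabets are admissible, letters of different alphabets are coprime -/
def Prog.Ok (P : Finset ℕ → Prop) : Prog κ → Prop
  | .leaf X => P (univ.biUnion X) ∧ ∀ c c', c ≠ c' → Disjoint (X c) (X c')
  | .node l r _ => l.Ok P ∧ r.Ok P ∧ ∀ a ∈ l.letters, ∀ b ∈ r.letters, Nat.Coprime a b

end

/-- DET: a family of width `w` is given by a deterministic program with the classes
`Finset (Fin w)`. -/
def T_DET : Prop :=
  ∀ (w k K : ℕ) (L : Finset ℕ) (A : Fin w → Finset ℕ), Fam w k K L A →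
    ∃ P : Prog (Finset (Fin w)), P.Ok (fun X => ∃ Y, Adm k K Y ∧ X ⊆ Y) ∧ P.letters ⊆ L ∧
      ∀ i, A i = (univ.filter fun c : Finset (Fin w) => i ∈ c).biUnion P.val

/-- DEC: decomposition into boxes. -/
def T_DEC : Prop :=
  ∀ (κ : Type) [Fintype κ] (P : Finset ℕ → Prop), (∀ X, P X → ∀ x ∈ X, 0 < x) →
    ∀ p : Prog κ, p.Ok P → ∀ M : ℝ, 0 < M → ∀ c₀ : κ, (p.val c₀).Nonempty →
    ∃ (J ι : Type) (_ : Fintype J) (_ : Fintype ι) (W : ι → J → Finset ℕ) (Ja : Finset J),
      Fintype.card ι ≤ Fintype.card κ ^ Fintype.card J ∧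
      (Fintype.card J : ℝ) ≤ 2 * Real.log (p.val c₀).card / M + 1 ∧
      (∀ β j, ∀ x ∈ W β j, 0 < x) ∧
      (∀ β β' j j', j ≠ j' → ∀ x ∈ W β j, ∀ y ∈ W β' j', Nat.Coprime x y) ∧
      (∀ β, ∀ x ∈ Fintype.piFinset (W β), ∏ j, x j ∈ p.val c₀) ∧
      ((p.val c₀).card : ℝ) = ∑ β, ∏ j, ((W β j).card : ℝ) ∧
      (∀ j ∈ Ja, ∑ β, (∏ j', ((W β j').card : ℝ)) * Real.log (W β j).card ≤
        (M + 2 * Real.log (Fintype.card κ)) * (p.val c₀).card) ∧
      ∀ j, j ∉ Ja → ∃ X, P X ∧ ∀ β, W β j ⊆ X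

/-- PR: the products. If two random elements rarely have nontrivial components in the same place of
`Ja` (`τ` is the mean number of nontrivial components in `Ja`), there are many products. -/
def T_PR : Prop :=
  ∀ (k K : ℕ), 1 ≤ k → 1 ≤ K → ∀ A : Finset ℕ, A.Nonempty → ∀ (J ι : Type) [Fintype J] [Fintype ι]
    (W : ι → J → Finset ℕ) (Ja : Finset J),
    (∀ β j, ∀ x ∈ W β j, 0 < x) →
    (∀ β β' j j', j ≠ j' → ∀ x ∈ W β j, ∀ y ∈ W β' j', Nat.Coprime x y) →
    (∀ β, ∀ x ∈ Fintype.piFinset (W β), ∏ j, x j ∈ A) →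
    (A.card : ℝ) = ∑ β, ∏ j, ((W β j).card : ℝ) →
    ∀ M τ : ℝ, 0 ≤ M →
    (∀ j ∈ Ja, ∑ β, (∏ j', ((W β j').card : ℝ)) * Real.log (W β j).card ≤ M * A.card) →
    (∀ j, j ∉ Ja → ∀ u : ℕ, ((Fintype.piFinset fun _ : Fin k => univ.biUnion fun β => W β j).filter
      fun f => ∏ i, f i = u).card ≤ K) →
    ∑ β, (∏ j', ((W β j').card : ℝ)) * ((Ja.filter fun j => 2 ≤ (W β j).card).card : ℝ) ≤
      τ * A.card →
    (A.card : ℝ) ^ k ≤ 2 * (Fintype.card ι : ℝ) ^ k * (K : ℝ) ^ Fintype.card J *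
      Real.exp (2 * k ^ 2 * M * τ) *
      (((Fintype.piFinset fun _ : Fin k => A).image fun f => ∏ i, f i).card : ℝ)

/-- DP: sets which contain a large direct product with many nontrivial factors. -/
def T_DP : Prop :=
  ∀ δ θ C₀ : ℝ, 0 < δ → 0 < θ → 0 ≤ C₀ → ∃ C : ℝ, 0 ≤ C ∧ ∀ (J : Type) [Fintype J]
    (W : J → Finset ℕ), (∀ j, (W j).Nonempty) → (∀ j, ∀ x ∈ W j, 0 < x) →
    (∀ j j', j ≠ j' → ∀ x ∈ W j, ∀ y ∈ W j', Nat.Coprime x y) →
    ∀ A : Finset ℕ, (∀ x ∈ Fintype.piFinset W, ∏ j, x j ∈ A) →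
    θ * Real.log A.card ≤ ((univ.filter fun j => 2 ≤ (W j).card).card : ℝ) →
    (1 - δ) * Real.log A.card - C₀ ≤ ∑ j, Real.log (W j).card →
    ∀ B : Finset ℤ, B.Nonempty → (1 - 4 * δ) * (Real.log A.card + Real.log B.card) - C ≤
      Real.log (((A.image fun a : ℕ => (a : ℤ)) + B).card : ℝ)

/-- FIN: the final form. -/
def T_FIN : Prop :=
  ∀ k : ℕ, 1 ≤ k → ∀ (w K : ℕ) (ε : ℝ), 0 < ε → ∃ c : ℝ, 0 < c ∧
    ∀ (L : Finset ℕ) (F : Fin w → Finset ℕ), Fam w k K L F → ∀ i, (F i).Nonempty →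
      c * ((F i).card : ℝ) ^ ((k : ℝ) - ε) ≤
          (((Fintype.piFinset fun _ : Fin k => F i).image fun f => ∏ i, f i).card : ℝ) ∨
      ∀ B : Finset ℤ, B.Nonempty →
        c * ((F i).card : ℝ) ^ ((k : ℝ) - ε) * (B.card : ℝ) ^ (1 - ε) ≤
          ((((Fintype.piFinset fun _ : Fin k => F i) ×ˢ B).image
            fun x => (∑ i, (x.1 i : ℤ)) + x.2).card : ℝ)

/-- FR: conditions of finite range with small separators. The set `E` of the ranges of the conditions
becomes a union of small components (the fibres of `col`, of size at most `N`) after the deletion of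
a small set `S` of places. -/
def T_FR : Prop :=
  ∀ (k D : ℕ) (ε θ : ℝ), 1 ≤ k → 0 < ε → 0 < θ → ∃ δ : ℝ, 0 < δ ∧ ∀ N : ℕ, ∃ c : ℝ, 0 < c ∧
    ∀ (V : Type) [Fintype V] (E : Finset (Finset V)) (S : Finset V) (col : V → V),
      (S.card : ℝ) ≤ δ * Fintype.card V →
      (∀ e ∈ E, ∀ v ∈ e, ∀ w ∈ e, v ∉ S → w ∉ S → col v = col w) →
      (∀ u, (univ.filter fun v => v ∉ S ∧ col v = u).card ≤ N) →
      ∀ X : V → Finset ℕ, (∀ v, (X v).card ≤ D) → (∀ v, ∀ x ∈ X v, 0 < x) →
      (∀ v w, v ≠ w → ∀ x ∈ X v, ∀ y ∈ X w, Nat.Coprime x y) →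
      ∀ C : Finset V → (V → ℕ) → Prop,
        (∀ e x y, (∀ v ∈ e, x v = y v) → (C e x ↔ C e y)) →
      ∀ A : Finset ℕ, A = ((Fintype.piFinset X).filter fun x => ∀ e ∈ E, C e x).image
          (fun x => ∏ v, x v) →
        Real.exp (θ * Fintype.card V) ≤ A.card →
        ∀ B : Finset ℤ, B.Nonempty →
          c * (A.card : ℝ) ^ ((k : ℝ) - ε) * (B.card : ℝ) ^ (1 - ε) ≤
            ((((Fintype.piFinset fun _ : Fin k => A) ×ˢ B).image
              fun x => (∑ i, (x.1 i : ℤ)) + x.2).card : ℝ)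

end Pool.Agent.T4h92.BW
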